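import Pool.Agent.TH279.Core.Out

/-!
# Separation of jets near the generic point, weighted version

The order `s q` of the jets may depend on the point.  (Adapted from `Pool.Agent.TH279.Core`.)
-/

set_option autoImplicit false
set_option linter.unusedSectionVars false
set_option linter.deprecated false

open PowerSeries

namespace Pool.Agent.J6H56.WS

open Pool.Agent.TH176.Nag Pool.Agent.TH279.Core

section rowsW

variable {C L : Type*} [Field C] [Field L] [CharZero L] [Algebra C L]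

/-- **Separation of jets over the field of the generic point.** -/
theorem core_rowsW {Dx Dy : Derivation C L L} (hcomm : ∀ z, Dx (Dy z) = Dy (Dx z)) {n : ℕ}
    {s : Fin n → ℕ} {ι : Type} [Fintype ι] (V : Submodule C L) (jj ii : ι → ℕ) (G : ι → BB L) (x y : Fin n → L)
    (hx : ∀ q, x q ≠ 0) (hy : ∀ q, y q ≠ 0)
    (hspan : ∀ τ (P : BB L → Prop), (∀ z ∈ V, P (EE Dx Dy z)) → (P 0) →
      (∀ φ ψ, P φ → P ψ → P (φ + ψ)) → (∀ c φ, P φ → P (cc c * φ)) → P (G τ))
    (h1 : ∀ τ, ∀ a < jj τ, coeff a (G τ) = 0)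
    (h2 : ∀ τ, ∀ b < ii τ, coeff b (coeff (jj τ) (G τ)) = 0)
    (h3 : ∀ τ, coeff (ii τ) (coeff (jj τ) (G τ)) ≠ 0)
    (hcard : Fintype.card ι = ∑ q, (s q + 1).choose 2)
    (hA : ∀ v : ι → L, (∀ (q : Fin n) (α β : ℕ), α + β < s q →
      ∑ τ, (((jj τ).descFactorial α : ℕ) : L) * (((ii τ).descFactorial β : ℕ) : L) *
        (x q ^ jj τ * y q ^ ii τ) * v τ = 0) → v = 0)
    (c : Fin n → ℕ × ℕ → BB L)
    (hcV : ∀ z ∈ V, ∑ q, ∑ p ∈ rows (s q),
      c q p * rsc (x q) (y q) (EE Dx Dy ((⇑Dx)^[p.1] ((⇑Dy)^[p.2] z))) = 0) :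
    ∀ q, ∀ p ∈ rows (s q), c q p = 0 := by
  classical
  -- the rows as a finite type
  let R : Type := Σ q : Fin n, rows (s q)
  let S : ℕ := ∑ q, s q
  have hRcard : Fintype.card R = Fintype.card ι := by
    rw [hcard, Fintype.card_sigma]
    refine Finset.sum_congr rfl fun q _ => ?_
    rw [Fintype.card_coe, card_rows]
  -- the rescaled coefficients
  let c' : R → BB L := fun r =>
    c r.1 r.2 * (PowerSeries.X ^ (S - r.2.1.1) * YY ^ (S - r.2.1.2) *
      cc ((x r.1 ^ r.2.1.1 * y r.1 ^ r.2.1.2)⁻¹))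
  have hle : ∀ r : R, r.2.1.1 ≤ S ∧ r.2.1.2 ≤ S := by
    intro r
    have h4 := mem_rows.1 r.2.2
    have h5 : s r.1 ≤ S := Finset.single_le_sum (f := s) (fun _ _ => Nat.zero_le _)
      (Finset.mem_univ r.1)
    omega
  -- the relations
  have hrel : ∀ z ∈ V, ∑ r : R, c' r * Sop r.2.1.1 r.2.1.2 (x r.1) (y r.1) (EE Dx Dy z) = 0 := by
    intro z hz
    have h4 := hcV z hz
    have h5 : ∑ r : R, c r.1 r.2 * rsc (x r.1) (y r.1)
        (EE Dx Dy ((⇑Dx)^[r.2.1.1] ((⇑Dy)^[r.2.1.2] z))) = 0 := by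
      rw [← h4, Fintype.sum_sigma]
      refine Finset.sum_congr rfl fun q _ => ?_
      exact (Finset.sum_coe_sort (rows (s q)) fun p =>
        c q p * rsc (x q) (y q) (EE Dx Dy ((⇑Dx)^[p.1] ((⇑Dy)^[p.2] z))))
    have h6 : PowerSeries.X ^ S * YY ^ S * ∑ r : R, c r.1 r.2 * rsc (x r.1) (y r.1)
        (EE Dx Dy ((⇑Dx)^[r.2.1.1] ((⇑Dy)^[r.2.1.2] z))) = 0 := by rw [h5, mul_zero]
    rw [← h6, Finset.mul_sum]
    refine Finset.sum_congr rfl fun r _ => ?_
    rw [← XY_rsc hcomm]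
    have h7 : (PowerSeries.X : BB L) ^ S = PowerSeries.X ^ (S - r.2.1.1) *
        PowerSeries.X ^ r.2.1.1 := by rw [← pow_add, Nat.sub_add_cancel (hle r).1]
    have h8 : (YY : BB L) ^ S = YY ^ (S - r.2.1.2) * YY ^ r.2.1.2 := by
      rw [← pow_add, Nat.sub_add_cancel (hle r).2]
    have h9 : cc ((x r.1 ^ r.2.1.1 * y r.1 ^ r.2.1.2)⁻¹) * cc (x r.1 ^ r.2.1.1 * y r.1 ^ r.2.1.2) =
        (1 : BB L) := by
      rw [cc, cc, ← map_mul, ← map_mul, inv_mul_cancel₀ (mul_ne_zero (pow_ne_zero _ (hx _))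
        (pow_ne_zero _ (hy _))), map_one, map_one]
    rw [h7, h8]
    simp only [c']
    linear_combination (c r.1 r.2 * PowerSeries.X ^ (S - r.2.1.1) * YY ^ (S - r.2.1.2) *
      PowerSeries.X ^ r.2.1.1 * YY ^ r.2.1.2 * rsc (x r.1) (y r.1)
        (EE Dx Dy ((⇑Dx)^[r.2.1.1] ((⇑Dy)^[r.2.1.2] z)))) * h9
  have hrelG : ∀ τ, ∑ r : R, c' r * Sop r.2.1.1 r.2.1.2 (x r.1) (y r.1) (G τ) = 0 := by
    intro τ
    refine hspan τ (fun φ => ∑ r : R, c' r * Sop r.2.1.1 r.2.1.2 (x r.1) (y r.1) φ = 0) hrel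
      ?_ ?_ ?_
    · simp only [Sop_zero, mul_zero, Finset.sum_const_zero]
    · intro φ ψ hφ hψ
      simp only [Sop_add, mul_add, Finset.sum_add_distrib]
      rw [hφ, hψ, add_zero]
    · intro d φ hφ
      have : ∑ r : R, c' r * Sop r.2.1.1 r.2.1.2 (x r.1) (y r.1) (cc d * φ) =
          cc d * ∑ r : R, c' r * Sop r.2.1.1 r.2.1.2 (x r.1) (y r.1) φ := by
        rw [Finset.mul_sum]
        refine Finset.sum_congr rfl fun r _ => ?_
        rw [Sop_cc]
        ring
      rw [this, hφ, mul_zero]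
  -- all rescaled coefficients vanish
  have hc' : ∀ r, c' r = 0 := by
    by_contra hne
    push Not at hne
    obtain ⟨r0, hr0⟩ := hne
    have hex : ∃ k, ∃ r, coeff k (c' r) ≠ 0 := by
      by_contra h
      push Not at h
      exact hr0 (PowerSeries.ext fun k => by rw [h k r0, map_zero])
    obtain ⟨r1, hr1⟩ := Nat.find_spec hex
    set k := Nat.find hex with hk
    have hkmin : ∀ r, ∀ a < k, coeff a (c' r) = 0 := by
      intro r a ha
      by_contra h
      exact Nat.find_min hex ha ⟨r, h⟩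
    have hex2 : ∃ l, ∃ r, coeff l (coeff k (c' r)) ≠ 0 := by
      by_contra h
      push Not at h
      exact hr1 (PowerSeries.ext fun l => by rw [h l r1, map_zero])
    obtain ⟨r2, hr2⟩ := Nat.find_spec hex2
    set l := Nat.find hex2 with hl
    have hlmin : ∀ r, ∀ b < l, coeff b (coeff k (c' r)) = 0 := by
      intro r b hb
      by_contra h
      exact Nat.find_min hex2 hb ⟨r, h⟩
    let lam : R → L := fun r => coeff l (coeff k (c' r))
    have hlam : ∀ τ, ∑ r : R, lam r * ((((jj τ).descFactorial r.2.1.1 : ℕ) : L) *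
        (((ii τ).descFactorial r.2.1.2 : ℕ) : L) * (x r.1 ^ jj τ * y r.1 ^ ii τ)) = 0 := by
      intro τ
      have h4 := congrArg (fun φ => coeff (l + ii τ) (coeff (k + jj τ) φ)) (hrelG τ)
      simp only [map_sum, map_zero] at h4
      have h5 : ∀ r : R, coeff (l + ii τ) (coeff (k + jj τ)
          (c' r * Sop r.2.1.1 r.2.1.2 (x r.1) (y r.1) (G τ))) =
          lam r * ((((jj τ).descFactorial r.2.1.1 : ℕ) : L) *
            (((ii τ).descFactorial r.2.1.2 : ℕ) : L) * (x r.1 ^ jj τ * y r.1 ^ ii τ)) *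
            coeff (ii τ) (coeff (jj τ) (G τ)) := by
        intro r
        rw [coeff_lex_mul (hkmin r) (hlmin r), coeff_Sop]
        · simp only [lam]; ring
        · intro a ha
          ext i
          rw [coeff_Sop, h1 τ a ha, map_zero, mul_zero, mul_zero]
        · intro b hb
          rw [coeff_Sop, h2 τ b hb, mul_zero, mul_zero]
      rw [Finset.sum_congr rfl fun r _ => h5 r, ← Finset.sum_mul] at h4
      exact (mul_eq_zero.1 h4).resolve_right (h3 τ)
    -- the square matrix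
    let e : R ≃ ι := Fintype.equivOfCardEq hRcard
    let M : Matrix R R L := fun r r' => (((jj (e r')).descFactorial r.2.1.1 : ℕ) : L) *
        (((ii (e r')).descFactorial r.2.1.2 : ℕ) : L) * (x r.1 ^ jj (e r') * y r.1 ^ ii (e r'))
    have hinj : Function.Injective M.mulVec := by
      intro v w hvw
      have h4 : M.mulVec (v - w) = 0 := by rw [Matrix.mulVec_sub, hvw, sub_self]
      have h5 := hA (fun τ => (v - w) (e.symm τ)) (fun q α β hαβ => by
        have h6 := congrFun h4 ⟨q, ⟨(α, β), mem_rows.2 hαβ⟩⟩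
        rw [Matrix.mulVec, dotProduct, Pi.zero_apply] at h6
        rw [← h6, ← Equiv.sum_comp e]
        refine Finset.sum_congr rfl fun r _ => ?_
        simp only [M, Equiv.symm_apply_apply])
      funext r
      have h6 := congrFun h5 (e r)
      simp only [Equiv.symm_apply_apply, Pi.sub_apply, Pi.zero_apply] at h6
      exact sub_eq_zero.1 h6
    have hunit := Matrix.mulVec_injective_iff_isUnit.1 hinj
    have hvinj := Matrix.vecMul_injective_iff_isUnit.2 hunit
    have h7 : lam = 0 := by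
      apply hvinj
      show Matrix.vecMul lam M = Matrix.vecMul 0 M
      rw [Matrix.zero_vecMul]
      funext r'
      rw [Matrix.vecMul, dotProduct, Pi.zero_apply]
      exact hlam (e r')
    exact hr2 (congrFun h7 r2)
  intro q p hp
  have h4 := hc' ⟨q, ⟨p, hp⟩⟩
  simp only [c'] at h4
  have hX : (PowerSeries.X : BB L) ≠ 0 := PowerSeries.X_ne_zero
  have hY : (YY : BB L) ≠ 0 := by
    intro h
    have h5 := congrArg (fun φ => coeff 1 (coeff 0 φ)) h
    simp [YY] at h5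
  have hcc : cc ((x q ^ p.1 * y q ^ p.2)⁻¹) ≠ (0 : BB L) := by
    intro h
    have h5 := congrArg (fun φ => coeff 0 (coeff 0 φ)) h
    simp only [cc, coeff_zero_C, map_zero] at h5
    exact inv_ne_zero (mul_ne_zero (pow_ne_zero _ (hx q)) (pow_ne_zero _ (hy q))) h5
  exact (mul_eq_zero.1 h4).resolve_right
    (mul_ne_zero (mul_ne_zero (pow_ne_zero _ hX) (pow_ne_zero _ hY)) hcc)

end rowsW

section toric

variable {K : Type*} [Field K]

/-- the square matrix of a toric input has no kernel -/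
theorem kernel_of_EmpW {n : ℕ} {s : Fin n → ℕ} {T : Finset (ℤ × ℤ)} (hT : ∀ t ∈ T, 0 ≤ t.1 ∧ 0 ≤ t.2)
    {x y : Fin n → K}
    (h : ∀ f : (ℤ × ℤ) →₀ K, (↑f.support : Set (ℤ × ℤ)) ⊆ (↑T : Set (ℤ × ℤ)) →
      (∀ q, LM f (x q) (y q) (s q)) → f = 0)
    (v : T → K) (hv : ∀ (q : Fin n) (α β : ℕ), α + β < s q →
      ∑ τ : T, (((τ : ℤ × ℤ).2.toNat.descFactorial α : ℕ) : K) *
        (((τ : ℤ × ℤ).1.toNat.descFactorial β : ℕ) : K) *
        (y q ^ (τ : ℤ × ℤ).2.toNat * x q ^ (τ : ℤ × ℤ).1.toNat) * v τ = 0) : v = 0 := by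
  classical
  let g : ℤ × ℤ → K := fun m => if hm : m ∈ T then v ⟨m, hm⟩ else 0
  let f : (ℤ × ℤ) →₀ K := Finsupp.onFinset T g (by
    intro m hm
    by_contra hn
    exact hm (dif_neg hn))
  have hfv : ∀ m : T, f m = v m := fun m => dif_pos m.2
  have hfT : (↑f.support : Set (ℤ × ℤ)) ⊆ (↑T : Set (ℤ × ℤ)) := by
    intro m hm
    by_contra hn
    have : f m ≠ 0 := Finsupp.mem_support_iff.1 hm
    exact this (dif_neg hn)
  have hf0 : f = 0 := by
    refine h f hfT fun q => ?_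
    let V : Submodule K (K × K → K) :=
      { carrier := {P | pr f (x q) (y q) P = 0}
        add_mem' := fun {P Q} hP hQ => by
          show pr f (x q) (y q) (P + Q) = 0
          rw [pr_add_right, show pr f (x q) (y q) P = 0 from hP,
            show pr f (x q) (y q) Q = 0 from hQ, add_zero]
        zero_mem' := by
          show pr f (x q) (y q) 0 = 0
          have := pr_smul_right f (x q) (y q) 0 (0 : K × K → K)
          rw [zero_smul, zero_mul] at this
          exact this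
        smul_mem' := fun c P hP => by
          show pr f (x q) (y q) (c • P) = 0
          rw [pr_smul_right, show pr f (x q) (y q) P = 0 from hP, mul_zero] }
    have hle : PF K (s q) ≤ V := by
      refine PF_le_of_desc2 fun a b hab => ?_
      show pr f (x q) (y q) _ = 0
      have h1 := hv q b a (by omega)
      rw [← h1]
      unfold pr
      rw [Finsupp.sum_of_support_subset f (s := T) (fun m hm => hfT hm) _
        (by intro m _; ring), ← Finset.sum_coe_sort]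
      refine Finset.sum_congr rfl fun τ _ => ?_
      obtain ⟨ht1, ht2⟩ := hT τ τ.2
      rw [hfv τ, cast_descFactorial, cast_descFactorial]
      have e1 : x q ^ (τ : ℤ × ℤ).1 = x q ^ (τ : ℤ × ℤ).1.toNat := by
        conv_lhs => rw [← Int.toNat_of_nonneg ht1]
        rw [zpow_natCast]
      have e2 : y q ^ (τ : ℤ × ℤ).2 = y q ^ (τ : ℤ × ℤ).2.toNat := by
        conv_lhs => rw [← Int.toNat_of_nonneg ht2]
        rw [zpow_natCast]
      have e3 : (((τ : ℤ × ℤ).1.toNat : ℕ) : K) = ((τ : ℤ × ℤ).1 : K) := by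
        conv_rhs => rw [← Int.toNat_of_nonneg ht1]
        rw [Int.cast_natCast]
      have e4 : (((τ : ℤ × ℤ).2.toNat : ℕ) : K) = ((τ : ℤ × ℤ).2 : K) := by
        conv_rhs => rw [← Int.toNat_of_nonneg ht2]
        rw [Int.cast_natCast]
      rw [e1, e2, e3, e4]
      ring
    exact fun P hP => hle hP
  funext τ
  rw [← hfv τ, hf0]
  rfl

end toric

/-- **The core of N4.** -/
theorem coreW {FF : Type} [Field FF] [Algebra ℂ FF] {κ : Type} [Field κ] [Algebra κ FF]
    [Algebra ℂ κ] [IsScalarTower ℂ κ FF] (Dx Dy : Derivation ℂ FF FF)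
    (hcomm : ∀ z, Dx (Dy z) = Dy (Dx z)) {a b g : FF} (hab : a = g * b) (hb : b ≠ 0)
    (h1 : Dx g = 1) (h2 : Dy g = 0) (hκ : ∀ z, Dy z = 0 → z ∈ (algebraMap κ FF).range)
    (R : ℕ → Submodule ℂ FF) [∀ m, Module.Finite ℂ (R m)]
    (hR : ∀ m m' : ℕ, ∀ x ∈ R m, ∀ y ∈ R m', x * y ∈ R (m + m')) {k : ℕ} (ha : a ∈ R k)
    (hbk : b ∈ R k) (n : ℕ) (s : Fin n → ℕ) (m : ℕ) (T : Finset (ℤ × ℤ))
    (hTc : T.card = ∑ q, (s q + 1).choose 2) (hTE : Emp s (T : Set (ℤ × ℤ)))
    (hT : ∀ p ∈ T, 0 ≤ p.1 ∧ 0 ≤ p.2 ∧ (k : ℤ) * p.2 ≤ m ∧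
      p.1 < Module.finrank κ (Submodule.span κ (R (m - k * p.2.toNat) : Set FF))) :
    ∃ (Om : Type) (_ : Field Om) (_ : Algebra ℂ Om) (Psi : Fin n → FF →ₐ[ℂ] Om),
      ∀ c : Fin n → ℕ → ℕ → Om, (∀ f ∈ R m, ∑ q, ∑ α ∈ Finset.range (s q),
        ∑ β ∈ Finset.range (s q - α), c q α β * Psi q ((⇑Dx)^[α] ((⇑Dy)^[β] f)) = 0) →
        ∀ q α β, α + β < s q → c q α β = 0 := by
  classical
  have : CharZero FF := charZero_of_injective_algebraMap (algebraMap ℂ FF).injective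
  have hTpos : ∀ t ∈ (T : Set (ℤ × ℤ)), 0 ≤ t.1 ∧ 0 ≤ t.2 := fun t ht =>
    ⟨(hT t ht).1, (hT t ht).2.1⟩
  obtain ⟨x, y, hx, hy, hE⟩ := Pool.Agent.TH880.NB.Emp_point T.finite_toSet hTpos hTE FF
  -- the rows
  have hrow : ∀ τ : T, ∃ G ∈ WW Dx Dy (R m),
      (∀ a' < (τ : ℤ × ℤ).2.toNat, coeff a' G = 0) ∧
      (∀ i' < (τ : ℤ × ℤ).1.toNat, coeff i' (coeff (τ : ℤ × ℤ).2.toNat G) = 0) ∧
      coeff (τ : ℤ × ℤ).1.toNat (coeff (τ : ℤ × ℤ).2.toNat G) ≠ 0 := by
    intro τ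
    obtain ⟨ht1, ht2, ht3, ht4⟩ := hT τ τ.2
    have hi : (τ : ℤ × ℤ).1.toNat <
        Module.finrank κ (Submodule.span κ (R (m - k * (τ : ℤ × ℤ).2.toNat) : Set FF)) := by
      omega
    obtain ⟨G0, hG0, -, r, hr⟩ := Pool.Agent.TH978.N4.rows_lead Dy hκ
      (ρ := ⇑(rho Dy)) (fun z => coeff_zero_rhoF Dy z) (fun z n => coeff_succ_rhoF' Dy z n)
      (R (m - k * (τ : ℤ × ℤ).2.toNat)) hi
    obtain ⟨H, hH, hH0⟩ := WW_lift (Dx := Dx) hG0
    have h3 : ∀ i' < (τ : ℤ × ℤ).1.toNat, coeff i' (coeff 0 H) = 0 := by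
      intro i' hi'
      rw [hH0, hr, coeff_X_pow_mul', if_neg (by omega)]
    have h4 : coeff (τ : ℤ × ℤ).1.toNat (coeff 0 H) ≠ 0 := by
      rw [hH0, hr, coeff_X_pow_mul', if_pos le_rfl, Nat.sub_self, map_add, coeff_zero_X_mul,
        add_zero, coeff_zero_one]
      exact one_ne_zero
    obtain ⟨G, hG, h5⟩ := exists_row hab hb h1 h2 R hR ha hbk (τ : ℤ × ℤ).2.toNat _ _ H hH h3 h4
    have h6 : m - k * (τ : ℤ × ℤ).2.toNat + k * (τ : ℤ × ℤ).2.toNat = m := by
      apply Nat.sub_add_cancel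
      have h7 : ((k * (τ : ℤ × ℤ).2.toNat : ℕ) : ℤ) ≤ m := by
        push_cast
        rw [Int.toNat_of_nonneg ht2]
        exact ht3
      exact_mod_cast h7
    rw [h6] at hG
    exact ⟨G, hG, h5⟩
  choose G hGW hG1 hG2 hG3 using hrow
  have hmain := core_rowsW (n := n) (s := s) hcomm (R m) (fun τ : T => (τ : ℤ × ℤ).2.toNat)
    (fun τ : T => (τ : ℤ × ℤ).1.toNat) G y x hy hx
    (fun τ P q1 q2 q3 q4 => WW_induct (hGW τ) P q1 q2 q3 q4) hG1 hG2 hG3
    (by rw [Fintype.card_coe, hTc])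
    (fun v hv => kernel_of_EmpW (fun t ht => hTpos t ht) (fun f hf hLM => hE f hf hLM) v hv)
  -- the field
  let Om : Type := FractionRing (BB FF)
  have hconst : ∀ (D : Derivation ℂ FF FF) (r : ℂ), rho D (algebraMap ℂ FF r) =
      PowerSeries.C (algebraMap ℂ FF r) := fun D r => rho_const D (D.map_algebraMap r)
  have hEc : ∀ r : ℂ, EE Dx Dy (algebraMap ℂ FF r) = cc (algebraMap ℂ FF r) := by
    intro r
    rw [EE, RingHom.comp_apply, hconst, PowerSeries.map_C, hconst]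
    rfl
  have hrc : ∀ (x y : FF) (r : ℂ), rsc x y (cc (algebraMap ℂ FF r)) =
      cc (algebraMap ℂ FF r) := by
    intro x y r
    ext j i
    rw [coeff_rsc, cc, coeff_C]
    split_ifs with hj
    · rw [coeff_C]
      split_ifs with hi
      · rw [hj, hi, pow_zero, pow_zero, one_mul, one_mul]
      · rw [mul_zero]
    · rw [map_zero, mul_zero]
  let Psi : Fin n → FF →ₐ[ℂ] Om := fun q =>
    { toRingHom := (algebraMap (BB FF) Om).comp ((rsc (y q) (x q)).comp (EE Dx Dy))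
      commutes' := fun r => by
        show algebraMap (BB FF) Om (rsc (y q) (x q) (EE Dx Dy (algebraMap ℂ FF r))) = _
        rw [hEc, hrc, IsScalarTower.algebraMap_apply ℂ (BB FF) Om, PowerSeries.algebraMap_apply,
          PowerSeries.algebraMap_apply]
        rfl }
  refine ⟨Om, inferInstance, inferInstance, Psi, fun c hc q α β hαβ => ?_⟩
  -- common denominator
  obtain ⟨d, hd⟩ := IsLocalization.exist_integer_multiples_of_finite (nonZeroDivisors (BB FF))
    (fun p : Σ q : Fin n, rows (s q) => c p.1 p.2.1.1 p.2.1.2)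
  choose c' hc' using hd
  let c'' : Fin n → ℕ × ℕ → BB FF := fun q p =>
    if hp : p ∈ rows (s q) then c' ⟨q, ⟨p, hp⟩⟩ else 0
  have hc'' : ∀ q p, p ∈ rows (s q) →
      algebraMap (BB FF) Om (c'' q p) = algebraMap (BB FF) Om d * c q p.1 p.2 := by
    intro q p hp
    have h3 := hc' ⟨q, ⟨p, hp⟩⟩
    simp only [c'']
    rw [dif_pos hp, h3, Algebra.smul_def]
  have hinj : Function.Injective (algebraMap (BB FF) Om) := IsFractionRing.injective (BB FF) Om
  have h3 := hmain c'' (fun z hz => by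
    apply hinj
    rw [map_zero, map_sum]
    have h4 := hc z hz
    have h5 : algebraMap (BB FF) Om d * ∑ q, ∑ α ∈ Finset.range (s q),
        ∑ β ∈ Finset.range (s q - α), c q α β * Psi q ((⇑Dx)^[α] ((⇑Dy)^[β] z)) = 0 := by
      rw [h4, mul_zero]
    rw [← h5, Finset.mul_sum]
    refine Finset.sum_congr rfl fun q _ => ?_
    rw [sum_rows (s q) fun α β => c q α β * Psi q ((⇑Dx)^[α] ((⇑Dy)^[β] z)), map_sum, Finset.mul_sum]
    refine Finset.sum_congr rfl fun p hp => ?_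
    rw [map_mul, hc'' q p hp]
    show _ * _ * algebraMap (BB FF) Om (rsc (y q) (x q) (EE Dx Dy _)) =
      _ * (_ * algebraMap (BB FF) Om (rsc (y q) (x q) (EE Dx Dy _)))
    ring) q (α, β) (mem_rows.2 hαβ)
  have h4 := hc'' q (α, β) (mem_rows.2 hαβ)
  rw [h3, map_zero] at h4
  have h5 : algebraMap (BB FF) Om d ≠ 0 := by
    intro h
    exact nonZeroDivisors.coe_ne_zero d (hinj (by rw [h, map_zero]))
  exact (mul_eq_zero.1 h4.symm).resolve_left h5

end Pool.Agent.J6H56.WS
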