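import Pool.Agent.TH471.M5.Main

/-!
Descent: from the independence of jets at a tuple of generic points to the separation of jets at
complex points.  (Weighted version of `Pool.Agent.TH471.M5.m5`: the order `s q` of the jets may
depend on the point.)
-/

namespace Pool.Agent.J6H56.WS

open MvPolynomial Pool.Agent.W607 Pool.Agent.TH471.M5

/-- **Descent of the separation of jets from generic points to complex points.** -/
theorem m5w {σ : Type} [Finite σ] {FF : Type} [Field FF] [Algebra ℂ FF]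
    (π : MvPolynomial σ ℂ →ₐ[ℂ] FF)
    (hfrac : ∀ z : FF, ∃ f g, π g ≠ 0 ∧ z * π g = π f)
    (x y : FF) (D1 D2 : Derivation ℂ FF FF)
    (h11 : D1 x = 1) (h12 : D1 y = 0) (h21 : D2 x = 0) (h22 : D2 y = 1)
    (halg : ∀ z : FF, ∃ Q : BB ℂ, Q ≠ 0 ∧ ev (K := ℂ) x y z Q = 0)
    (hxy : ∀ Q : AA ℂ, aeval ![x, y] Q = 0 → Q = 0)
    (V : Submodule ℂ FF) (hV : ∀ f ∈ V, ∃ F, π F = f)
    (n : ℕ) (s : Fin n → ℕ) {Ω : Type} [Field Ω] [Algebra ℂ Ω] (Ψ : Fin n → FF →ₐ[ℂ] Ω)
    (hind : ∀ c : Fin n → ℕ → ℕ → Ω,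
      (∀ f ∈ V, ∑ q, ∑ α ∈ Finset.range (s q), ∑ β ∈ Finset.range (s q - α),
        c q α β * Ψ q (D1^[α] (D2^[β] f)) = 0) → ∀ q α β, α + β < s q → c q α β = 0) :
    ∃ H : MvPolynomial (Fin n × σ) ℂ,
      (∃ w : Fin n → σ → ℂ, (∀ q, ∀ f, π f = 0 → eval (w q) f = 0) ∧
        eval (fun p => w p.1 p.2) H ≠ 0) ∧
      ∀ w : Fin n → σ → ℂ, (∀ q, ∀ f, π f = 0 → eval (w q) f = 0) →
        eval (fun p => w p.1 p.2) H ≠ 0 →
        ∀ q (f : MvPolynomial σ ℂ), ∃ G : MvPolynomial σ ℂ, π G ∈ V ∧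
          G - f ∈ RingHom.ker π ⊔ (mw (w q)) ^ s q ∧
          ∀ q', q' ≠ q → G ∈ RingHom.ker π ⊔ (mw (w q')) ^ s q' := by
  classical
  obtain ⟨h, hh, hden, hcrit⟩ := exists_chart hfrac x y D1 D2 h11 h12 h21 h22 halg hxy
  -- the index set
  let T : Fin n → Finset (Σ _ : ℕ, ℕ) := fun q =>
    (Finset.range (s q)).sigma fun α => Finset.range (s q - α)
  have hT : ∀ (q : Fin n) (α β : ℕ), (⟨α, β⟩ : Σ _ : ℕ, ℕ) ∈ T q ↔ α + β < s q := by
    intro q α β
    rw [Finset.mem_sigma, Finset.mem_range, Finset.mem_range]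
    constructor
    · rintro ⟨h1, h2⟩
      simp only at h1 h2
      omega
    · intro h1
      exact ⟨by simp only; omega, by simp only; omega⟩
  let Cn := Σ q : Fin n, T q
  let DD : Cn → FF →ₗ[ℂ] FF := fun j =>
    ((D1 : FF →ₗ[ℂ] FF) ^ j.2.1.1) * ((D2 : FF →ₗ[ℂ] FF) ^ j.2.1.2)
  have hDD : ∀ (j : Cn) (f : FF), DD j f = D1^[j.2.1.1] (D2^[j.2.1.2] f) := by
    intro j f
    simp only [DD, Module.End.mul_apply, Module.End.pow_apply]
    rfl
  -- the choice of functions
  obtain ⟨g, hgV, hdet⟩ := exists_det_ne_zero (Cn := Cn) (Ω := Ω)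
    (fun j f => Ψ j.1 (DD j f)) (V : Set FF) (by
      intro c hc
      let c' : Fin n → ℕ → ℕ → Ω := fun q α β =>
        if h : (⟨α, β⟩ : Σ _ : ℕ, ℕ) ∈ T q then c ⟨q, ⟨⟨α, β⟩, h⟩⟩ else 0
      have h1 : ∀ q α β, α + β < s q → c' q α β = 0 := by
        apply hind
        intro f hf
        rw [← hc f hf, Fintype.sum_sigma]
        refine Finset.sum_congr rfl fun q _ => ?_
        rw [Finset.sum_sigma']
        show ∑ x ∈ T q, c' q x.1 x.2 * Ψ q (D1^[x.1] (D2^[x.2] f)) = _
        rw [← Finset.sum_coe_sort (T q)]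
        refine Finset.sum_congr rfl fun t _ => ?_
        rw [hDD]
        have h2 : c' q t.1.1 t.1.2 = c ⟨q, t⟩ := by
          show (if h : (⟨t.1.1, t.1.2⟩ : Σ _ : ℕ, ℕ) ∈ T q then
            c ⟨q, ⟨⟨t.1.1, t.1.2⟩, h⟩⟩ else 0) = _
          rw [dif_pos t.2]
        rw [h2]
      ext ⟨q, ⟨⟨α, β⟩, ht⟩⟩
      have h2 := h1 q α β ((hT q α β).1 ht)
      have h3 : c' q α β = c ⟨q, ⟨⟨α, β⟩, ht⟩⟩ := dif_pos ht
      rw [← h3, h2]
      rfl)
  have hG : ∀ j, ∃ G, π G = g j := fun j => hV _ (hgV j)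
  choose G hG using hG
  have hden' : ∀ (j : Cn) (f : MvPolynomial σ ℂ), ∃ (k : ℕ) (a : MvPolynomial σ ℂ),
      DD j (π f) * π h ^ k = π a := by
    intro j f
    rw [hDD]
    exact hden _ _ _
  choose kk aa hka using fun (j j' : Cn) => hden' j (G j')
  let K : ℕ := ∑ j, ∑ j', kk j j'
  have hK : ∀ j j', kk j j' ≤ K := fun j j' =>
    (Finset.single_le_sum (f := fun j' => kk j j') (fun _ _ => Nat.zero_le _)
      (Finset.mem_univ j')).trans (Finset.single_le_sum (f := fun j => ∑ j', kk j j')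
        (fun _ _ => Nat.zero_le _) (Finset.mem_univ j))
  let A : Cn → Cn → MvPolynomial σ ℂ := fun j j' => aa j j' * h ^ (K - kk j j')
  have hA : ∀ j j', DD j (g j') * π h ^ K = π (A j j') := by
    intro j j'
    show _ = π (aa j j' * h ^ (K - kk j j'))
    rw [map_mul, ← hka, map_pow, hG, mul_assoc, ← pow_add, Nat.add_sub_cancel' (hK j j')]
  let M : Matrix Cn Cn (MvPolynomial (Fin n × σ) ℂ) := fun j j' =>
    rename (fun i => (j.1, i)) (A j j')
  let H : MvPolynomial (Fin n × σ) ℂ := M.det * ∏ q, rename (fun i => (q, i)) h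
  refine ⟨H, ?_, ?_⟩
  · -- the generic point
    let z : Fin n × σ → Ω := fun p => Ψ p.1 (π (X p.2))
    have hz : ∀ q (f : MvPolynomial σ ℂ), aeval z (rename (fun i => (q, i)) f) = Ψ q (π f) := by
      intro q f
      rw [aeval_rename]
      have h1 : aeval (z ∘ fun i => (q, i)) = (Ψ q).comp π := by
        apply MvPolynomial.algHom_ext
        intro i
        rw [aeval_X]
        rfl
      rw [h1]
      rfl
    have hzH : aeval z H ≠ 0 := by
      show aeval z (M.det * ∏ q, rename (fun i => (q, i)) h) ≠ 0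
      rw [map_mul, map_prod]
      refine mul_ne_zero ?_ (Finset.prod_ne_zero_iff.2 fun q _ => ?_)
      · rw [AlgHom.map_det]
        have h1 : (aeval z : MvPolynomial (Fin n × σ) ℂ →ₐ[ℂ] Ω).mapMatrix M =
            Matrix.of fun j j' => (Ψ j.1 (π h)) ^ K *
              (Matrix.of fun (j j' : Cn) => Ψ j.1 (DD j (g j'))) j j' := by
          ext j j'
          show aeval z (rename (fun i => (j.1, i)) (A j j')) = _
          rw [hz, ← hA, map_mul, map_pow, mul_comm]
          rfl
        rw [h1, Matrix.det_mul_column]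
        refine mul_ne_zero (Finset.prod_ne_zero_iff.2 fun j _ => pow_ne_zero _ ?_) hdet
        rw [Ne, map_eq_zero]
        exact hh
      · rw [hz, Ne, map_eq_zero]
        exact hh
    obtain ⟨w, hw, hwH⟩ := specialise z H hzH
    refine ⟨fun q i => w (q, i), fun q f hf => ?_, hwH⟩
    have h1 := hw (rename (fun i => (q, i)) f) (by rw [hz, hf, map_zero])
    rw [eval_rename] at h1
    exact h1
  · intro w hw hwH q f
    have hwe : ∀ q (f : MvPolynomial σ ℂ),
        eval (fun p : Fin n × σ => w p.1 p.2) (rename (fun i => (q, i)) f) = eval (w q) f := by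
      intro q f
      rw [eval_rename]
      rfl
    have hH' : eval (fun p : Fin n × σ => w p.1 p.2) (M.det * ∏ q, rename (fun i => (q, i)) h) ≠
      0 := hwH
    rw [map_mul, map_prod] at hH'
    have hhw : ∀ q, eval (w q) h ≠ 0 := by
      intro q
      have := Finset.prod_ne_zero_iff.1 (right_ne_zero_of_mul hH') q (Finset.mem_univ q)
      rwa [hwe] at this
    let Mw : Matrix Cn Cn ℂ := fun j j' => eval (w j.1) (A j j')
    have hMw : IsUnit Mw.det := by
      rw [isUnit_iff_ne_zero]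
      have h1 := left_ne_zero_of_mul hH'
      rw [RingHom.map_det] at h1
      have h2 : (eval (fun p : Fin n × σ => w p.1 p.2)).mapMatrix M = Mw := by
        ext j j'
        exact hwe _ _
      rwa [h2] at h1
    choose k1 a1 h1 using fun j : Cn => hden' j f
    let tt : Cn → ℂ := fun j => if j.1 = q then
      eval (w q) (a1 j) / (eval (w q) h) ^ (k1 j) * (eval (w q) h) ^ K else 0
    let c : Cn → ℂ := Mw⁻¹.mulVec tt
    have hc : Mw.mulVec c = tt := by
      rw [Matrix.mulVec_mulVec, Matrix.mul_nonsing_inv _ hMw, Matrix.one_mulVec]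
    let GG : MvPolynomial σ ℂ := ∑ j', C (c j') * G j'
    have hGG : π GG = ∑ j', c j' • g j' := by
      show π (∑ j', C (c j') * G j') = _
      rw [map_sum]
      refine Finset.sum_congr rfl fun j' _ => ?_
      rw [map_mul, hG, ← MvPolynomial.algebraMap_eq, AlgHom.commutes, Algebra.smul_def]
    have hDG : ∀ j, DD j (π GG) * π h ^ K = π (∑ j', C (c j') * A j j') := by
      intro j
      rw [hGG, map_sum, map_sum, Finset.sum_mul]
      refine Finset.sum_congr rfl fun j' _ => ?_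
      have h2 : π (C (c j')) = algebraMap ℂ FF (c j') := by
        rw [← MvPolynomial.algebraMap_eq, AlgHom.commutes]
      have h3 : π (C (c j') * A j j') = π (C (c j')) * π (A j j') := map_mul π _ _
      rw [map_smul, smul_mul_assoc, hA, h3, h2, Algebra.smul_def]
    have hev : ∀ j : Cn, eval (w j.1) (∑ j', C (c j') * A j j') = tt j := by
      intro j
      rw [← hc, map_sum]
      simp only [Matrix.mulVec, dotProduct, map_mul, eval_C]
      exact Finset.sum_congr rfl fun j' _ => mul_comm _ _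
    refine ⟨GG, ?_, ?_, ?_⟩
    · rw [hGG]
      exact Submodule.sum_mem _ fun j' _ => Submodule.smul_mem _ _ (hgV j')
    · refine hcrit (w q) (hw q) (hhw q) (s q) _ fun α β hαβ => ?_
      let j : Cn := ⟨q, ⟨⟨α, β⟩, (hT q α β).2 hαβ⟩⟩
      refine ⟨K + k1 j, (∑ j', C (c j') * A j j') * h ^ (k1 j) - a1 j * h ^ K, ?_, ?_⟩
      · have h2 := hDG j
        have h3 := h1 j
        have h4 : D1^[α] (D2^[β] (π (GG - f))) = DD j (π GG) - DD j (π f) := by
          rw [← map_sub, ← map_sub, hDD]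
        rw [h4, map_sub, map_mul, map_mul, ← h2, ← h3, map_pow, map_pow, pow_add]
        ring
      · have h2 := hev j
        have h5 : eval (w q) (∑ j', C (c j') * A j j') = tt j := h2
        rw [map_sub, map_mul, h5, map_mul, map_pow, map_pow]
        have h6 : tt j = eval (w q) (a1 j) / (eval (w q) h) ^ (k1 j) * (eval (w q) h) ^ K :=
          if_pos rfl
        rw [h6]
        have h7 := pow_ne_zero (k1 j) (hhw q)
        field_simp
        ring
    · intro q' hq'
      refine hcrit (w q') (hw q') (hhw q') (s q') _ fun α β hαβ => ?_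
      let j : Cn := ⟨q', ⟨⟨α, β⟩, (hT q' α β).2 hαβ⟩⟩
      refine ⟨K, ∑ j', C (c j') * A j j', ?_, ?_⟩
      · rw [← hDG j, hDD]
      · have h2 := hev j
        have h5 : eval (w q') (∑ j', C (c j') * A j j') = tt j := h2
        rw [h5]
        exact if_neg hq'

end Pool.Agent.J6H56.WS
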