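import Pool.Agent.Y799.SE.Eff

/-!
The weighted value `√(L² / ∑ y_q²)` is not attained by any curve, if the weights are proportional
to natural numbers `c_q` and `L² ∑ c_q²` is not a square.
-/

set_option autoImplicit false

open MvPolynomial Module Filter Topology

namespace Pool.Agent.J6H56.WS

open Pool.Agent.TH279.GR Pool.Agent.TH306.N4 Pool.Agent.TH611.M5 Pool.Agent.Y799.SE

variable {a b : ℕ}

/-- arithmetic: `√(δ / Y) = e / M` with natural `M ≥ 1`, `e`, `Y ≥ 1` forces `δ Y` to be a square -/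
theorem isSquare_of_eq {δ Y M e : ℕ} (hY : 1 ≤ Y) (hM : 1 ≤ M)
    (h : √((δ : ℝ) / Y) * M = e) : IsSquare (δ * Y) := by
  by_contra hsq
  exact absurd h (strict hY hsq hM h.le).ne

/-- **non-attainment.** -/
theorem not_attainedW {P : Ideal (Co a b)} {α β γ δ : ℕ} (hX : Surf P α β γ) (hnef : Nef P)
    {i : Fin (a + 1)} {j : Fin (b + 1)} {n : ℕ} {w : Fin n → Ix a b → ℂ}
    (hw : Tuple i j P w) (hsm : ∀ q, SmoothAt P i j (w q)) {y : Fin n → ℝ} {lam : ℝ}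
    (hlam : 0 < lam) {c : Fin n → ℕ} (hy : ∀ q, y q = lam * c q)
    (hsq : ¬ IsSquare (δ * ∑ q, c q ^ 2)) :
    ¬ ∃ (Q : Ideal (Co a b)) (dA dB : ℝ) (μ : Fin n → ℝ), P ≤ Q ∧ Curv Q dA dB ∧
      (∀ q, IsMult i j Q (w q) (μ q)) ∧ 0 < ∑ q, y q * μ q ∧
      √((δ : ℝ) / ∑ q, y q ^ 2) = (dA - dB) / ∑ q, y q * μ q := by
  rintro ⟨Q, dA, dB, μ, hPQ, hQ, hμ, hpos, hx⟩
  have hlt := curv_ne hX hPQ hQ
  have hch : ∀ q, ∀ f ∈ chart i j P, eval (w q) f = 0 := tuple_iff.1 hw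
  obtain ⟨nA, nB, hA, hB⟩ := curv_nat hX hPQ hQ
  have hle : dB ≤ dA := hnef Q dA dB hPQ hQ
  choose k hk using fun q => mult_nat hX (hch q) (hsm q) hQ.hom hlt (hμ q)
  have hBA : nB ≤ nA := by
    rw [hA, hB] at hle
    exact_mod_cast hle
  have hsum : ∑ q, y q * μ q = lam * ((∑ q, c q * k q : ℕ) : ℝ) := by
    push_cast
    rw [Finset.mul_sum]
    refine Finset.sum_congr rfl fun q _ => ?_
    rw [hk q, hy q]
    ring
  have hsq2 : ∑ q, y q ^ 2 = lam ^ 2 * ((∑ q, c q ^ 2 : ℕ) : ℝ) := by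
    push_cast
    rw [Finset.mul_sum]
    refine Finset.sum_congr rfl fun q _ => ?_
    rw [hy q]
    ring
  have hdiff : dA - dB = ((nA - nB : ℕ) : ℝ) := by
    rw [hA, hB, Nat.cast_sub hBA]
  have hMpos : 0 < ((∑ q, c q * k q : ℕ) : ℝ) := by
    rw [hsum] at hpos
    exact (mul_pos_iff_of_pos_left hlam).1 hpos
  have hM : 1 ≤ ∑ q, c q * k q := by exact_mod_cast hMpos
  have hY : 1 ≤ ∑ q, c q ^ 2 := by
    by_contra h0
    have h1 : ∑ q, c q ^ 2 = 0 := by omega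
    have h2 : ∀ q, c q = 0 := fun q => by
      have := (Finset.sum_eq_zero_iff.1 h1) q (Finset.mem_univ q)
      exact pow_eq_zero_iff (n := 2) (by norm_num) |>.1 this
    simp [h2] at hM
  apply hsq
  refine isSquare_of_eq hY hM (e := nA - nB) ?_
  have hYpos : (0 : ℝ) < ((∑ q, c q ^ 2 : ℕ) : ℝ) := by exact_mod_cast hY
  have e1 : √((δ : ℝ) / ∑ q, y q ^ 2) = √((δ : ℝ) / ((∑ q, c q ^ 2 : ℕ) : ℝ)) / lam := by
    rw [hsq2, mul_comm, ← div_div, Real.sqrt_div' _ (by positivity), Real.sqrt_sq hlam.le]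
  rw [e1, hsum, hdiff] at hx
  rw [div_eq_div_iff hlam.ne' (by positivity)] at hx
  have h3 : lam * (√((δ : ℝ) / ((∑ q, c q ^ 2 : ℕ) : ℝ)) * ((∑ q, c q * k q : ℕ) : ℝ)) =
      lam * ((nA - nB : ℕ) : ℝ) := by
    linarith
  exact mul_left_cancel₀ hlam.ne' h3

end Pool.Agent.J6H56.WS
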