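import Pool.Agent.TH471.N4.S4F
import Pool.Agent.J6H56.WS.Core
import Pool.Agent.J6H56.WS.M5

/-!
The weighted interface statement `S4W`: the orders of the jets at the points may be different.
(Adapted from `Pool.Agent.TH471.N4.S4`.)
-/

set_option autoImplicit false

open MvPolynomial Module

namespace Pool.Agent.J6H56.WS

open Pool.Agent.TH279.GR Pool.Agent.TH880.NB Pool.Agent.TH176.Nag Pool.Agent.TH306.N4
open Pool.Agent.TH471.N4

/-- `V` separates the jets of order `s q` at the points `w q` of the affine scheme of `J` -/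
def SepVW {σ : Type} {n : ℕ} (J : Ideal (MvPolynomial σ ℂ)) (V : MvPolynomial σ ℂ → Prop)
    (s : Fin n → ℕ) (w : Fin n → σ → ℂ) : Prop :=
  ∀ q (f : MvPolynomial σ ℂ), ∃ F : MvPolynomial σ ℂ, V F ∧ F - f ∈ J ⊔ mx (w q) ^ s q ∧
    ∀ q', q' ≠ q → F ∈ J ⊔ mx (w q') ^ s q'

/-- weighted `S4`: if the monomials `(i, l)` with `i < rk (m - k l)` separate jets of order `s q`
at `n` toric points, the sections of `m L` separate jets of order `s q` at `n` points of `X` -/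
def S4W : Prop :=
  ∀ (a b : ℕ) (P : Ideal (Co a b)) (α β γ : ℕ), Surf P α β γ →
    ∀ (i : Fin (a + 1)) (j : Fin (b + 1)) (FF : Type) [Field FF] [Algebra ℂ FF]
    (π : Co a b →ₐ[ℂ] FF), Mod P i j π → (∀ m, FiniteDimensional ℂ (SecM π m)) →
    ∀ (k : ℕ) (g₁ g₂ : FF), Pencil π k g₁ g₂ →
    ∀ (n m : ℕ) (s : Fin n → ℕ) (T : Finset (ℤ × ℤ)), T.card = ∑ q, (s q + 1).choose 2 →
      Emp s (T : Set (ℤ × ℤ)) →
      (∀ p ∈ T, 0 ≤ p.1 ∧ 0 ≤ p.2 ∧ (k : ℤ) * p.2 ≤ m ∧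
        p.1 < rk π (g₁ / g₂) (m - k * p.2.toNat)) →
      ∃ w : Fin n → Ix a b → ℂ, Tuple i j P w ∧
        SepVW (chart i j P) (fun F => Sec π m (π F)) s w

/-- `S4` with the open set -/
theorem s4HW (h0 : S0) (hTR : TR) (hDER : DER) (a b : ℕ) (P : Ideal (Co a b)) (α β γ : ℕ)
    (hS : Surf P α β γ) (i : Fin (a + 1)) (j : Fin (b + 1)) (FF : Type) [Field FF]
    [Algebra ℂ FF] (π : Co a b →ₐ[ℂ] FF) (hM : Mod P i j π)
    (hfin : ∀ m, FiniteDimensional ℂ (SecM π m)) (k : ℕ) (g₁ g₂ : FF) (hP : Pencil π k g₁ g₂)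
    (n m : ℕ) (s : Fin n → ℕ) (T : Finset (ℤ × ℤ)) (hTc : T.card = ∑ q, (s q + 1).choose 2)
    (hTE : Emp s (T : Set (ℤ × ℤ)))
    (hT : ∀ p ∈ T, 0 ≤ p.1 ∧ 0 ≤ p.2 ∧ (k : ℤ) * p.2 ≤ m ∧
      p.1 < rk π (g₁ / g₂) (m - k * p.2.toNat)) :
    ∃ H : MvPolynomial (Fin n × Ix a b) ℂ,
      (∃ w : Fin n → Ix a b → ℂ, Tuple i j P w ∧ eval (fun p => w p.1 p.2) H ≠ 0) ∧
      ∀ w : Fin n → Ix a b → ℂ, Tuple i j P w → eval (fun p => w p.1 p.2) H ≠ 0 →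
        SepVW (chart i j P) (fun F => Sec π m (π F)) s w := by
  obtain ⟨y, hind, halg⟩ := hTR a b P α β γ hS i j FF π hM (g₁ / g₂) hP.tr
  obtain ⟨D1, D2, h11, h12, h21, h22, hcomm⟩ := hDER FF (g₁ / g₂) y hind halg
  have hsec : ∀ m ψ, ψ ∈ SecM π m ↔ Sec π m ψ := fun m ψ => (h0 a b P i j FF π hM m).1 ψ
  have hspan : ∀ m, (SecM π m : Set FF) = {ψ | Sec π m ψ} := by
    intro m
    ext ψ
    exact hsec m ψ
  obtain ⟨Om, _, _, Psi, hPsi⟩ := coreW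
    (κ := IntermediateField.adjoin ℂ {g₁ / g₂}) D1 D2 hcomm (a := g₁) (b := g₂) (g := g₁ / g₂)
    (by rw [div_mul_cancel₀ _ hP.ne₂]) hP.ne₂ h11 h21
    (fun z hz => ⟨⟨z, hP.closed z
      (Pool.Agent.TH974.N4.der_const (g₁ / g₂) y hind halg D2 h21 h22 z hz)⟩, rfl⟩)
    (SecM π) (fun m m' x hx y hy => (hsec _ _).2
      ((h0 a b P i j FF π hM m).2.1 x ((hsec _ _).1 hx) m' y ((hsec _ _).1 hy)))
    (k := k) ((hsec _ _).2 hP.sec₁) ((hsec _ _).2 hP.sec₂) n s m T hTc hTE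
    (by
      intro p hp
      obtain ⟨h1, h2, h3, h4⟩ := hT p hp
      refine ⟨h1, h2, h3, ?_⟩
      rw [hspan]
      exact h4)
  obtain ⟨H, ⟨w, hw, hwH⟩, hH⟩ := m5w π hM.frac (g₁ / g₂) y D1 D2
    h11 h12 h21 h22 (fun z => ev_of_isAlgebraic (halg z))
    (fun Q hQ => (algebraicIndependent_iff.1 hind) Q hQ) (SecM π m)
    (fun f hf => (h0 a b P i j FF π hM m).2.2 f ((hsec _ _).1 hf)) n s Psi hPsi
  refine ⟨H, ⟨w, (tuple_iff hM w).2 hw, hwH⟩, fun w hw hwH q f => ?_⟩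
  obtain ⟨G, hG, h1, h2⟩ := hH w ((tuple_iff hM w).1 hw) hwH q f
  have hker : RingHom.ker π = chart i j P := by
    ext f
    rw [RingHom.mem_ker, hM.ker]
  rw [hker] at h1 h2
  exact ⟨G, (hsec _ _).1 hG, h1, h2⟩

/-- **The interface statement `S4W`.** -/
theorem s4w_of (h0 : S0) (hTR : TR) (hDER : DER) : S4W := by
  intro a b P α β γ hS i j FF _ _ π hM hfin k g₁ g₂ hP n m s T hTc hTE hT
  obtain ⟨H, ⟨w, hw, hwH⟩, hH⟩ := s4HW h0 hTR hDER a b P α β γ hS i j FF π hM hfin k g₁ g₂ hP n m s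
    T hTc hTE hT
  exact ⟨w, hw, hH w hw hwH⟩

/-- **`S4W`**, from the cubic growth `J3` only. -/
theorem s4w (hJ3 : J3) : S4W := s4w_of Pool.Agent.TH880.N4.s0 (tr_of hJ3) der

end Pool.Agent.J6H56.WS
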