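import Pool.Agent.TH880.N4.S6
import Pool.Agent.J6H56.WS.S4

/-! The weighted curve inequality for the sections of `m L` (adapted from `Pool.Agent.TH880.N4`). -/

set_option autoImplicit false

open MvPolynomial Filter Topology

namespace Pool.Agent.J6H56.WS

open Pool.Agent.TH279.GR Pool.Agent.TH306.N4 Pool.Agent.W601.Curve Pool.Agent.TH880.N4

section
variable {F A : Type*} [Field F] [CommRing A] [IsDomain A] [Algebra F A]
variable {O : ℕ → ℕ → Submodule F A}

/-- **the weighted curve inequality**, abstract form -/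
theorem curve_coreW (h : BiFil F O) {α β : ℝ}
    (hh : ∀ p q : ℕ, 1 ≤ p → 1 ≤ q →
      Tendsto (fun t : ℕ => (Module.finrank F (O (p * t) (q * t)) : ℝ) / (t : ℝ)) atTop
        (𝓝 (α * p + β * q)))
    {ι : Type*} [Fintype ι] (M : ι → Ideal A) (hfin : ∀ q j, Module.Finite F (A ⧸ (M q) ^ j))
    (hcop : Pairwise fun q q' => IsCoprime (M q) (M q'))
    {G : A} (hG0 : G ≠ 0) {k : ι → ℕ} {m u0 v0 : ℕ} (hGM : ∀ q, G ∈ (M q) ^ k q)
    (hG : ∀ f ∈ O u0 (v0 + m), G * f ∈ O (u0 + m) v0) (t : ℕ) :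
    ((∑ q, Module.finrank F (A ⧸ (M q) ^ (k q * t)) : ℕ) : ℝ) ≤ (α - β) * (m * t : ℕ) := by
  obtain ⟨T0, hT0⟩ := h.step (fun q => (M q) ^ (k q * t)) (fun q => hfin q _)
    (fun q q' hqq => (hcop hqq).pow) (G := G ^ t) (pow_ne_zero _ hG0)
    (fun q => by rw [pow_mul]; exact Ideal.pow_mem_pow (hGM q) t) (D := m * t) (u0 := u0) (v0 := v0)
    (fun u v hu hv f hf => h.twist_pow hG t hu hv f hf)
  exact num_step (h := fun u v => Module.finrank F (O u v)) hh hT0

end

section
variable {a b : ℕ} {i : Fin (a + 1)} {j : Fin (b + 1)}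

/-- **S6W**: the weighted curve inequality. -/
theorem s6w_of (P : Ideal (Co a b)) (i : Fin (a + 1)) (j : Fin (b + 1)) {FF : Type} [Field FF] [Algebra ℂ FF]
    (π : Co a b →ₐ[ℂ] FF) (hM : Mod P i j π) (n m : ℕ) (s : Fin n → ℕ) (hs : ∀ q, 1 ≤ s q)
    (w : Fin n → Ix a b → ℂ)
    (_hw : Tuple i j P w) (hinj : Function.Injective w)
    (hsep : SepVW (chart i j P) (fun F => Sec π m (π F)) s w) (Q : Ideal (Co a b)) (dA dB : ℝ) (hPQ : P ≤ Q)
    (hQ : Curv Q dA dB) (hnef : dB ≤ dA) (μ : Fin n → ℝ) (hμ : ∀ q, IsMult i j Q (w q) (μ q)) :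
    ∑ q, ((s q : ℝ) - 1) * μ q ≤ m * (dA - dB) := by
  classical
  have hR0 : 0 ≤ (m : ℝ) * (dA - dB) := mul_nonneg (Nat.cast_nonneg _) (by linarith)
  obtain ⟨J, hJ⟩ : ∃ J, J = chart i j Q := ⟨_, rfl⟩
  have hfinJ : ∀ q K, Module.Finite ℂ (Co a b ⧸ (J ⊔ (mx (w q)) ^ K)) :=
    fun q K => finite_quot_of_le (w q) K _ le_sup_right
  have hall0 : (∀ q, μ q = 0) → ∑ q, ((s q : ℝ) - 1) * μ q ≤ m * (dA - dB) := by
    intro h
    simp only [h, Finset.sum_const_zero, mul_zero]
    exact hR0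
  by_cases htop : J = ⊤
  · apply hall0
    intro q
    refine mult_zero (c := 0) (fun K => ?_) (hμ q)
    have : Subsingleton (Co a b ⧸ (chart i j Q ⊔ (mx (w q)) ^ K)) := by
      rw [Ideal.Quotient.subsingleton_iff, ← hJ, htop, top_sup_eq]
    exact (Module.finrank_zero_of_subsingleton).le
  have hx : X (Sum.inl i) ∉ Q := by
    intro h
    apply htop
    rw [hJ, Ideal.eq_top_iff_one]
    have h1 : (X (Sum.inl i) - 1 : Co a b) ∈ chart i j Q := Ideal.mem_sup_right (x_mem_ch0 (j₀ := j))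
    have h2 : (X (Sum.inl i) : Co a b) ∈ chart i j Q := Ideal.mem_sup_left h
    have := sub_mem h2 h1
    rwa [sub_sub_cancel] at this
  have hy : X (Sum.inr j) ∉ Q := by
    intro h
    apply htop
    rw [hJ, Ideal.eq_top_iff_one]
    have h1 : (X (Sum.inr j) - 1 : Co a b) ∈ chart i j Q := Ideal.mem_sup_right (y_mem_ch0 (i₀ := i))
    have h2 : (X (Sum.inr j) : Co a b) ∈ chart i j Q := Ideal.mem_sup_left h
    have := sub_mem h2 h1
    rwa [sub_sub_cancel] at this
  have hprime : (chart i j Q).IsPrime := chart_prime Q hQ.prime hQ.hom hx hy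
  have hdom : IsDomain (Co a b ⧸ chart i j Q) := Ideal.Quotient.isDomain _
  have hIJ : chart i j P ≤ J := by rw [hJ]; exact sup_le_sup hPQ le_rfl
  obtain ⟨k, rfl⟩ : ∃ k : Fin n → ℕ, s = fun q => k q + 1 :=
    ⟨fun q => s q - 1, funext fun q => (Nat.sub_add_cancel (hs q)).symm⟩
  simp only at hs hsep ⊢
  by_cases hG : ∃ F : Co a b, Sec π m (π F) ∧ F ∉ J ∧ ∀ q, F ∈ J ⊔ (mx (w q)) ^ k q
  · obtain ⟨F, hFS, hFJ, hFk⟩ := hG
    obtain ⟨c, hc⟩ := hFS
    rw [hJ] at hFJ hFk hIJ hfinJ
    have hB := biFil (i := i) (j := j) Q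
    have hgr : ∀ p q : ℕ, 1 ≤ p → 1 ≤ q → Tendsto (fun t : ℕ => (Module.finrank ℂ
        ((bh a b (p * t) (q * t)).map (Ideal.Quotient.mkₐ ℂ (chart i j Q)).toLinearMap) : ℝ) / (t : ℝ)) atTop
        (𝓝 (dA * p + dB * q)) := by
      intro p q hp hq
      refine (hQ.growth p q hp hq).congr fun t => ?_
      have hfb := finite_bh (a := a) (b := b) (p * t) (q * t)
      have e : hf Q (p * t) (q * t) = Module.finrank ℂ
        ((bh a b (p * t) (q * t)).map (Ideal.Quotient.mkₐ ℂ (chart i j Q)).toLinearMap) := by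
        unfold hf
        refine finrank_map_congr _ _ _ fun f hf' => ?_
        show Ideal.Quotient.mk Q f = 0 ↔ Ideal.Quotient.mk (chart i j Q) f = 0
        rw [Ideal.Quotient.eq_zero_iff_mem, Ideal.Quotient.eq_zero_iff_mem]
        exact ⟨fun h => Ideal.mem_sup_left h, fun h => mem_of_mem_chart Q hQ.prime hQ.hom hx hy hf' h⟩
      rw [e]
    have hcore := curve_coreW hB (α := dA) (β := dB) hgr
      (fun q : Fin n => (mx (w q)).map (Ideal.Quotient.mk (chart i j Q)))
      (fun q K => by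
        rw [← Ideal.map_pow]
        exact finite_quot' _ _ _ (hfinJ q K))
      (fun q q' hqq => coprime_map _ _ _ (coprime_mw (w q) (w q') (fun h => hqq (hinj h))))
      (G := Ideal.Quotient.mk (chart i j Q) F) (fun h => hFJ (Ideal.Quotient.eq_zero_iff_mem.1 h))
      (k := k) (m := m) (u0 := c) (v0 := c)
      (fun q => by
        rw [← Ideal.map_pow]
        obtain ⟨y, hy', z, hz', hyz⟩ := Submodule.mem_sup.1 (hFk q)
        have e : Ideal.Quotient.mk (chart i j Q) F = Ideal.Quotient.mk (chart i j Q) z := by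
          rw [Ideal.Quotient.eq, ← hyz, add_sub_cancel_right]; exact hy'
        rw [e]
        exact Ideal.mem_map_of_mem _ hz')
      (fun f hf' => by
        obtain ⟨f, hf', rfl⟩ := hf'
        obtain ⟨f', hf'', hff⟩ := hc (π f) ⟨f, hf', rfl⟩
        refine ⟨f', hf'', ?_⟩
        show Ideal.Quotient.mk (chart i j Q) f' = Ideal.Quotient.mk (chart i j Q) F * Ideal.Quotient.mk (chart i j Q) f
        rw [← map_mul, Ideal.Quotient.eq]
        apply hIJ
        rw [← hM.ker, map_sub, map_mul]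
        have : π f' = π F * π f := hff
        rw [this, sub_self])
    have hcore' : ∀ t : ℕ, ∑ q, (Module.finrank ℂ (Co a b ⧸ (chart i j Q ⊔ (mx (w q)) ^ (k q * t))) : ℝ) ≤
        (dA - dB) * (m * t) := by
      intro t
      have h1 := hcore t
      push_cast at h1
      refine le_trans (le_of_eq ?_) h1
      refine Finset.sum_congr rfl fun q _ => ?_
      rw [← Ideal.map_pow, finrank_quot]
    have hterm : ∀ q, Tendsto (fun t : ℕ => (Module.finrank ℂ (Co a b ⧸ (chart i j Q ⊔
        (mx (w q)) ^ (k q * t))) : ℝ) / (t : ℝ)) atTop (𝓝 ((((k q + 1 : ℕ) : ℝ) - 1) * μ q)) := by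
      intro q
      have hk1 : (((k q + 1 : ℕ) : ℝ) - 1) = k q := by push_cast; ring
      rw [hk1]
      rcases Nat.eq_zero_or_pos (k q) with hk0 | hk
      · have h0 : ∀ t : ℕ, Module.finrank ℂ (Co a b ⧸ (chart i j Q ⊔
            (mx (w q)) ^ (k q * t))) = 0 := by
          intro t
          have : Subsingleton (Co a b ⧸ (chart i j Q ⊔ (mx (w q)) ^ (k q * t))) := by
            rw [Ideal.Quotient.subsingleton_iff, hk0, Nat.zero_mul, pow_zero, Ideal.one_eq_top,
              sup_top_eq]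
          exact Module.finrank_zero_of_subsingleton
        simp only [h0, Nat.cast_zero, zero_div]
        rw [hk0, Nat.cast_zero, zero_mul]
        exact tendsto_const_nhds
      · have hkr : (0 : ℝ) < k q := by exact_mod_cast hk
        have hsub : Tendsto (fun t : ℕ => k q * t) atTop atTop :=
          tendsto_atTop_mono (f := fun t => t) (fun t => by
            show t ≤ k q * t
            nlinarith) tendsto_id
        have h1 := ((hμ q).comp hsub).const_mul (k q : ℝ)
        refine h1.congr' ?_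
        filter_upwards [eventually_gt_atTop 0] with t ht
        have ht' : (0 : ℝ) < t := by exact_mod_cast ht
        simp only [Function.comp_apply]
        push_cast
        field_simp
    have hL := tendsto_finsetSum Finset.univ fun q _ => hterm q
    refine le_of_tendsto hL ?_
    filter_upwards [eventually_gt_atTop 0] with t ht
    have ht' : (0 : ℝ) < t := by exact_mod_cast ht
    have h1 := hcore' t
    rw [← Finset.sum_div, div_le_iff₀ ht']
    linarith
  · push Not at hG
    apply hall0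
    intro q
    have hle : (mx (w q)) ^ k q ≤ J ⊔ (mx (w q)) ^ (k q + 1) := by
      intro g hg
      obtain ⟨F, hFh, hFg, hFq⟩ := hsep q g
      have hFg' : F - g ∈ J ⊔ (mx (w q)) ^ (k q + 1) := (sup_le_sup hIJ le_rfl) hFg
      have hFP : F ∈ J := by
        by_contra hFP
        obtain ⟨q', hq'⟩ := hG F hFh hFP
        apply hq'
        have hmono : ∀ q, J ⊔ (mx (w q)) ^ (k q + 1) ≤ J ⊔ (mx (w q)) ^ k q := fun q =>
          sup_le_sup le_rfl (Ideal.pow_le_pow_right (Nat.le_succ (k q)))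
        by_cases hqq : q' = q
        · subst hqq
          have : F = (F - g) + g := by ring
          rw [this]
          exact add_mem (hmono _ hFg') (Ideal.mem_sup_right hg)
        · exact hmono _ ((sup_le_sup hIJ le_rfl) (hFq q' hqq))
      have : g = F - (F - g) := by ring
      rw [this]
      exact sub_mem (Ideal.mem_sup_left hFP) hFg'
    refine mult_zero (c := Module.finrank ℂ (Co a b ⧸ (J ⊔ (mx (w q)) ^ k q))) (fun K => ?_) (hμ q)
    rw [← hJ]
    exact finrank_mono (sup_le le_sup_left (pow_le_sup J (mx (w q)) (k q) hle K)) (hfinJ q (k q))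

/-- weighted `S6`: the curve inequality, for curves `Q` with `L · Q ≥ 0` -/
def S6W : Prop :=
  ∀ (a b : ℕ) (P : Ideal (Co a b)) (i : Fin (a + 1)) (j : Fin (b + 1)) (FF : Type) [Field FF]
    [Algebra ℂ FF] (π : Co a b →ₐ[ℂ] FF), Mod P i j π →
    ∀ (n m : ℕ) (s : Fin n → ℕ), (∀ q, 1 ≤ s q) → ∀ w : Fin n → Ix a b → ℂ, Tuple i j P w →
      Function.Injective w →
      SepVW (chart i j P) (fun F => Sec π m (π F)) s w →
      ∀ (Q : Ideal (Co a b)) (dA dB : ℝ), P ≤ Q → Curv Q dA dB → dB ≤ dA →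
        ∀ μ : Fin n → ℝ, (∀ q, IsMult i j Q (w q) (μ q)) →
          ∑ q, ((s q : ℝ) - 1) * μ q ≤ m * (dA - dB)

theorem s6w : S6W := by
  intro a b P i j FF _ _ π hM n m s hs w hw hinj hsep Q dA dB hPQ hQ hnef μ hμ
  exact s6w_of P i j π hM n m s hs w hw hinj hsep Q dA dB hPQ hQ hnef μ hμ

end

end Pool.Agent.J6H56.WS
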