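import Pool.Agent.TH611.M5.S9
import Pool.Agent.J6H56.WS.S4

/-!
Openness of the separation of jets of orders `s q`, countable intersections of open sets of tuples
of points, injectivity (the weighted statement `S9W`; adapted from `Pool.Agent.TH611.M5.S9`).
-/

set_option autoImplicit false

namespace Pool.Agent.J6H56.WS

open MvPolynomial Module Pool.Agent.TH279.GR Pool.Agent.TH306.N4 Pool.Agent.TH611.M5

section open_

variable {σ : Type} [Finite σ]

omit [Finite σ] in
theorem sig_ext {n : ℕ} {p : Fin n → (σ →₀ ℕ) → Prop} {j j' : Σ q : Fin n, {α : σ →₀ ℕ // p q α}}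
    (h : j.1 = j'.1) (h' : j.2.1 = j'.2.1) : j = j' := by
  obtain ⟨q, α, hα⟩ := j
  obtain ⟨q', α', hα'⟩ := j'
  simp only at h h'
  subst h h'
  rfl

/-- **Separation of jets by a linear system is an open condition on the points.** -/
theorem SepVW.exists_open {n : ℕ} {s : Fin n → ℕ} {J : Ideal (MvPolynomial σ ℂ)}
    {V : Submodule ℂ (MvPolynomial σ ℂ)} {w0 : Fin n → σ → ℂ}
    (h0 : SepVW J (fun F => F ∈ V) s w0) :
    ∃ H : MvPolynomial (Fin n × σ) ℂ, eval (fun p => w0 p.1 p.2) H ≠ 0 ∧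
      ∀ w : Fin n → σ → ℂ, eval (fun p => w p.1 p.2) H ≠ 0 → SepVW J (fun F => F ∈ V) s w := by
  classical
  let Cn := Σ q : Fin n, {α : σ →₀ ℕ // α ∈ dgf σ (s q)}
  let f0 : Cn → MvPolynomial σ ℂ := fun j => shf (fun i => - w0 j.1 i) (monomial j.2.1 1)
  have hf0 : ∀ j : Cn, shf (w0 j.1) (f0 j) = monomial j.2.1 1 := by
    intro j
    have h1 := shf_shf (fun i => - w0 j.1 i) (monomial j.2.1 (1 : ℂ))
    simp only [neg_neg] at h1
    exact h1
  have hF : ∀ j : Cn, ∃ F : MvPolynomial σ ℂ, F ∈ V ∧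
      ∀ q', ∃ G ∈ J, F - G - (if q' = j.1 then f0 j else 0) ∈ (mx (w0 q')) ^ s q' := by
    intro j
    obtain ⟨F, hF, hF1, hF2⟩ := h0 j.1 (f0 j)
    refine ⟨F, hF, fun q' => ?_⟩
    by_cases hq : q' = j.1
    · rw [if_pos hq, hq]
      obtain ⟨G, hG, m, hm, hGm⟩ := Submodule.mem_sup.1 hF1
      refine ⟨G, hG, ?_⟩
      have : F - G - f0 j = m := by
        rw [sub_right_comm, ← hGm]
        ring
      rw [this]
      exact hm
    · rw [if_neg hq]
      obtain ⟨G, hG, m, hm, hGm⟩ := Submodule.mem_sup.1 (hF2 q' hq)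
      refine ⟨G, hG, ?_⟩
      have : F - G - 0 = m := by
        rw [← hGm]
        ring
      rw [this]
      exact hm
  choose F hFh G hG hFG using hF
  let A : Matrix Cn Cn (MvPolynomial (Fin n × σ) ℂ) := fun j' j =>
    coeff j'.2.1 (gshf j'.1 (F j - G j j'.1))
  let ew : (Fin n → σ → ℂ) → MvPolynomial (Fin n × σ) ℂ →+* ℂ :=
    fun w => eval (fun p => w p.1 p.2)
  have hA : ∀ (w : Fin n → σ → ℂ) (j' j : Cn), ew w (A j' j) =
      coeff j'.2.1 (shf (w j'.1) (F j - G j j'.1)) := by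
    intro w j' j
    rw [← map_gshf j'.1 w, coeff_map]
  have hdet : ∀ w, ew w A.det = ((ew w).mapMatrix A).det := fun w => RingHom.map_det _ _
  refine ⟨A.det, ?_, fun w hw => ?_⟩
  · have h1 : (ew w0).mapMatrix A = 1 := by
      ext j' j
      show ew w0 (A j' j) = _
      rw [hA, Matrix.one_apply]
      have h2 := mem_mx_pow_iff.1 (hFG j j'.1) j'.2.1 (mem_dgf.1 j'.2.2)
      rw [map_sub, coeff_sub, sub_eq_zero] at h2
      rw [h2]
      by_cases h3 : j' = j
      · rw [if_pos h3, h3, if_pos rfl, hf0, coeff_monomial, if_pos rfl]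
      · rw [if_neg h3]
        by_cases h4 : j'.1 = j.1
        · have h6 : shf (w0 j'.1) (f0 j) = monomial j.2.1 1 := by rw [h4, hf0]
          rw [if_pos h4, h6, coeff_monomial, if_neg]
          intro h5
          exact h3 (sig_ext h4 h5.symm)
        · rw [if_neg h4, map_zero, coeff_zero]
    show ew w0 A.det ≠ 0
    rw [hdet, h1, Matrix.det_one]
    exact one_ne_zero
  · have hu : IsUnit ((ew w).mapMatrix A).det := by
      rw [← hdet]
      exact isUnit_iff_ne_zero.2 hw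
    intro q f
    let T : Cn → ℂ := fun j' => if j'.1 = q then coeff j'.2.1 (shf (w q) f) else 0
    let c : Cn → ℂ := ((ew w).mapMatrix A)⁻¹.mulVec T
    have hc : ((ew w).mapMatrix A).mulVec c = T := by
      rw [Matrix.mulVec_mulVec, Matrix.mul_nonsing_inv _ hu, Matrix.one_mulVec]
    have hkey : ∀ q', (∑ j, C (c j) * F j) - (if q' = q then f else 0) ∈
        J ⊔ (mx (w q')) ^ s q' := by
      intro q'
      have h1 : (∑ j, C (c j) * F j) - (if q' = q then f else 0) =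
          (∑ j, C (c j) * G j q') +
            ((∑ j, C (c j) * (F j - G j q')) - (if q' = q then f else 0)) := by
        simp only [mul_sub, Finset.sum_sub_distrib]
        ring
      rw [h1]
      refine Submodule.add_mem_sup (Submodule.sum_mem _ fun j _ =>
        Ideal.mul_mem_left _ _ (hG j q')) ?_
      rw [mem_mx_pow_iff]
      intro α hα
      have h2 := congrFun hc ⟨q', ⟨α, mem_dgf.2 hα⟩⟩
      simp only [Matrix.mulVec, dotProduct, RingHom.mapMatrix_apply, Matrix.map_apply, hA] at h2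
      rw [map_sub, coeff_sub, sub_eq_zero, map_sum, coeff_sum]
      have h3 : ∀ j, coeff α (shf (w q') (C (c j) * (F j - G j q'))) =
          coeff α (shf (w q') (F j - G j q')) * c j := by
        intro j
        rw [map_mul, shf_C, coeff_C_mul, mul_comm]
      simp only [h3]
      rw [h2]
      simp only [T]
      by_cases hq : q' = q
      · rw [if_pos hq, if_pos hq, hq]
      · rw [if_neg hq, if_neg hq, map_zero, coeff_zero]
    refine ⟨∑ j, C (c j) * F j, ?_, ?_, fun q' hq' => ?_⟩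
    · refine Submodule.sum_mem _ fun j _ => ?_
      rw [← MvPolynomial.smul_eq_C_mul]
      exact Submodule.smul_mem _ _ (hFh j)
    · have := hkey q
      rwa [if_pos rfl] at this
    · have := hkey q'
      rwa [if_neg hq', sub_zero] at this

omit [Finite σ] in
theorem SepVW.injective {n : ℕ} {s : Fin n → ℕ} {J : Ideal (MvPolynomial σ ℂ)} {V : MvPolynomial σ ℂ → Prop}
    {w : Fin n → σ → ℂ} (hs : ∀ q, s q ≠ 0) (hsep : SepVW J V s w)
    (hwJ : ∀ q, ∀ f ∈ J, eval (w q) f = 0) : Function.Injective w := by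
  intro q q' hqq
  by_contra hne
  obtain ⟨F, _, hF1, hF2⟩ := hsep q 1
  have hF2 := hF2 q' (Ne.symm hne)
  have hle : ∀ q, J ⊔ (mx (w q)) ^ s q ≤ RingHom.ker (eval (w q) : MvPolynomial σ ℂ →+* ℂ) := by
    intro q
    refine sup_le (fun f hf => hwJ q f hf) ?_
    refine (Ideal.pow_le_self (hs q)).trans ?_
    unfold mx
    rw [Ideal.span_le]
    rintro _ ⟨i, rfl⟩
    show eval (w q) (X i - C (w q i)) = 0
    rw [map_sub, eval_X, eval_C, sub_self]
  have h1 := hle q hF1
  have h2 := hle q' hF2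
  rw [← hqq] at h2
  rw [RingHom.mem_ker] at h1 h2
  rw [map_sub, h2, map_one, zero_sub, neg_eq_zero] at h1
  exact one_ne_zero h1

end open_

/-- **weighted `S9`** -/
theorem s9w_of {ι : Type} [Countable ι] (a b : ℕ) (P : Ideal (Co a b)) (hp : P.IsPrime)
    (hP : BHom P) (i : Fin (a + 1)) (j : Fin (b + 1)) (hi : X (Sum.inl i) ∉ P)
    (hj : X (Sum.inr j) ∉ P) (V : ι → Submodule ℂ (Co a b)) (n : ℕ) (s : ι → Fin n → ℕ)
    (hs : ∃ k, ∀ q, s k q ≠ 0)
    (hw : ∀ k, ∃ w : Fin n → Ix a b → ℂ, Tuple i j P w ∧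
      SepVW (chart i j P) (fun F => F ∈ V k) (s k) w) :
    ∃ H : ι → MvPolynomial (Fin n × Ix a b) ℂ,
      (∃ w : Fin n → Ix a b → ℂ, Tuple i j P w ∧ ∀ k, eval (fun p => w p.1 p.2) (H k) ≠ 0) ∧
      ∀ w : Fin n → Ix a b → ℂ, Tuple i j P w →
        (∀ k, eval (fun p => w p.1 p.2) (H k) ≠ 0) →
        Function.Injective w ∧ ∀ k, SepVW (chart i j P) (fun F => F ∈ V k) (s k) w := by
  have hJ := chart_prime hp hP hi hj
  choose w0 hw0 hsep0 using hw
  choose H hH0 hH using fun k => SepVW.exists_open (hsep0 k)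
  obtain ⟨w, hw1, hw2⟩ := exists_tuple_countable (chart i j P) hJ H
    (fun k => ⟨w0 k, tuple_iff.1 (hw0 k), hH0 k⟩)
  refine ⟨H, ⟨w, tuple_iff.2 hw1, hw2⟩, fun w hw hwH => ⟨?_, fun k => hH k w (hwH k)⟩⟩
  obtain ⟨k, hk⟩ := hs
  exact SepVW.injective hk (hH k w (hwH k)) (tuple_iff.1 hw)

/-- weighted `S9`, for sequences -/
def S9W : Prop :=
  ∀ (a b : ℕ) (P : Ideal (Co a b)), P.IsPrime → BHom P → ∀ (i : Fin (a + 1)) (j : Fin (b + 1)),
    X (Sum.inl i) ∉ P → X (Sum.inr j) ∉ P → ∀ (V : ℕ → Submodule ℂ (Co a b)) (n : ℕ)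
    (s : ℕ → Fin n → ℕ), (∀ q, s 0 q ≠ 0) →
    (∀ k, ∃ w : Fin n → Ix a b → ℂ, Tuple i j P w ∧
      SepVW (chart i j P) (fun F => F ∈ V k) (s k) w) →
    ∃ H : ℕ → MvPolynomial (Fin n × Ix a b) ℂ,
      (∃ w : Fin n → Ix a b → ℂ, Tuple i j P w ∧ ∀ k, eval (fun p => w p.1 p.2) (H k) ≠ 0) ∧
      ∀ w : Fin n → Ix a b → ℂ, Tuple i j P w →
        (∀ k, eval (fun p => w p.1 p.2) (H k) ≠ 0) →
        Function.Injective w ∧ ∀ k, SepVW (chart i j P) (fun F => F ∈ V k) (s k) w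

theorem s9w : S9W := by
  intro a b P hp hP i j hi hj V n s hs hw
  exact s9w_of a b P hp hP i j hi hj V n s ⟨0, hs⟩ hw

end Pool.Agent.J6H56.WS
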